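import Pool.Agent.N772.CZ.RF
import Pool.Agent.N772.CZ.AT
import Pool.Agent.H904L2.Main1
import Pool.Agent.H904L2.Main2

set_option autoImplicit false

open Polynomial
open scoped Real

namespace Pool.Agent.N772.CZ

open H904L2 H904L2.Main1

lemma finite_zeros (f : ℤ[X]) (hf : f ≠ 0) : {z : ℂ | aeval z f = 0}.Finite := by
  have hinj : Function.Injective (Int.castRingHom ℂ) := by
    intro a b h
    simpa using h
  have hf' : f.map (Int.castRingHom ℂ) ≠ 0 := (Polynomial.map_ne_zero_iff hinj).mpr hf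
  have h1 : {z : ℂ | aeval z f = 0} = ((f.map (Int.castRingHom ℂ)).roots.toFinset : Set ℂ) := by
    classical
    ext x
    rw [Set.mem_setOf_eq, Finset.mem_coe, Multiset.mem_toFinset, mem_roots hf', IsRoot.def,
      eval_map]
    rfl
  rw [h1]
  exact Finset.finite_toSet _

/-- the main step, no two distinct roots with the same square -/
theorem injective_case' (f : ℤ[X]) (hm : f.Monic) (hi : Irreducible f)
    (hbig : ∃ x : ℂ, aeval x f = 0 ∧ 1 < ‖x‖)
    (hinj : ∀ x y : ℂ, aeval x f = 0 → aeval y f = 0 → x ^ 2 = y ^ 2 → x = y) :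
    1 / 640 ≤ (f.natDegree : ℝ) * ∫ x in (-π)..π, RF {z : ℂ | aeval z f = 0} x := by
  classical
  have h0 := coeff_zero_ne f hi hbig
  have hnd := nodup_roots f hm hi
  have hmC : (f.map (Int.castRingHom ℂ)).Monic := hm.map _
  have hne : f.map (Int.castRingHom ℂ) ≠ 0 := hmC.ne_zero
  have hroot : ∀ x : ℂ, x ∈ (f.map (Int.castRingHom ℂ)).roots ↔ aeval x f = 0 := by
    intro x
    rw [mem_roots hne, IsRoot.def, eval_map]
    rfl
  obtain ⟨s, hs⟩ : ∃ s : Finset ℂ, s = (f.map (Int.castRingHom ℂ)).roots.toFinset := ⟨_, rfl⟩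
  have hsmem : ∀ x : ℂ, x ∈ s ↔ aeval x f = 0 := by
    intro x; rw [hs, Multiset.mem_toFinset, hroot]
  have hsval : s.val = (f.map (Int.castRingHom ℂ)).roots := by
    rw [hs, Multiset.toFinset_val, Multiset.dedup_eq_self.mpr hnd]
  have hprod : f.map (Int.castRingHom ℂ) = ∏ i : {x // x ∈ s}, (X - C (i : ℂ)) := by
    have h1 := (IsAlgClosed.splits (f.map (Int.castRingHom ℂ))).eq_prod_roots_of_monic hmC
    rw [← hsval] at h1
    rw [Finset.prod_coe_sort s (fun z => (X - C z : ℂ[X]))]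
    exact h1
  have hcard : Fintype.card {x // x ∈ s} = f.natDegree := by
    have h1 : (f.map (Int.castRingHom ℂ)).natDegree = f.natDegree := hm.natDegree_map _
    rw [← h1, hprod, natDegree_prod_of_monic _ _ (fun i _ => monic_X_sub_C _)]
    simp
  obtain ⟨x0, hx0, hx01⟩ := hbig
  have hx0s : x0 ∈ s := (hsmem x0).mpr hx0
  have : Nonempty {x // x ∈ s} := ⟨⟨x0, hx0s⟩⟩
  have hdpos : 0 < f.natDegree := by rw [← hcard]; exact Fintype.card_pos
  by_contra hcon
  push Not at hcon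
  -- the reversed polynomial and its Graeffe transforms
  have hR : (f.reverse).map (Int.castRingHom ℂ) =
      ∏ i : {x // x ∈ s}, (1 - C (i : ℂ) * X) := by
    have h1 : (f.reverse).map (Int.castRingHom ℂ) = (f.map (Int.castRingHom ℂ)).reverse := by
      rw [reverse, reverse, hm.natDegree_map, reflect_map]
    rw [h1, hprod, reverse_prod]
  obtain ⟨R2, hR2⟩ := exists_graeffe f.reverse
  obtain ⟨R4, hR4⟩ := exists_graeffe R2
  obtain ⟨U, hU⟩ := graeffe_congr _ _ _ hR2 hR4
  have hR2m := graeffe_prod (fun i : {x // x ∈ s} => (i : ℂ)) f.reverse R2 hR hR2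
  have hR4m := graeffe_prod (fun i : {x // x ∈ s} => (i : ℂ) ^ 2) R2 R4 hR2m hR4
  have hR4m' : R4.map (Int.castRingHom ℂ) = ∏ i : {x // x ∈ s}, (1 - C ((i : ℂ) ^ 4) * X) := by
    rw [hR4m]
    refine Finset.prod_congr rfl fun i _ => ?_
    rw [← pow_mul]
  have hcoef : ∀ b : {x // x ∈ s} → ℂ, (∏ i, (1 - C (b i) * X) : ℂ[X]).coeff 0 = 1 := by
    intro b
    rw [coeff_zero_eq_eval_zero, eval_prod]
    simp
  have hR20 : R2.coeff 0 = 1 := by
    have h1 : (R2.map (Int.castRingHom ℂ)).coeff 0 = 1 := by rw [hR2m]; exact hcoef _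
    rw [coeff_map] at h1
    exact_mod_cast (by simpa using h1 : ((R2.coeff 0 : ℤ) : ℂ) = 1)
  have hR40 : R4.coeff 0 = 1 := by
    have h1 : (R4.map (Int.castRingHom ℂ)).coeff 0 = 1 := by rw [hR4m']; exact hcoef _
    rw [coeff_map] at h1
    exact_mod_cast (by simpa using h1 : ((R4.coeff 0 : ℤ) : ℂ) = 1)
  obtain ⟨a, ha⟩ : ∃ a : {x // x ∈ s} ⊕ {x // x ∈ s} → ℂ,
      a = Sum.elim (fun i : {x // x ∈ s} => (i : ℂ) ^ 2)
        (fun i : {x // x ∈ s} => (i : ℂ) ^ 4) := ⟨_, rfl⟩
  have haprod : (∏ i, (1 - C (a i) * X) : ℂ[X]) =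
      (∏ i : {x // x ∈ s}, (1 - C ((i : ℂ) ^ 2) * X)) *
        ∏ i : {x // x ∈ s}, (1 - C ((i : ℂ) ^ 4) * X) := by
    rw [Fintype.prod_sum_type, ha]
    simp only [Sum.elim_inl, Sum.elim_inr]
  have hmapprod : (R2 * R4).map (Int.castRingHom ℂ) = (∏ i, (1 - C (a i) * X) : ℂ[X]) := by
    rw [Polynomial.map_mul, hR2m, hR4m', haprod]
  obtain ⟨c', hc'0, hc'2, -⟩ := exists_coeffs a
  have hcc : PowerSeries.constantCoeff (PowerSeries.mk c') = (1 : ℂ) := by
    rw [← PowerSeries.coeff_zero_eq_constantCoeff_apply, PowerSeries.coeff_mk, hc'0]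
  obtain ⟨c, hc⟩ := int_coeffs R2 R4 U hR20 hR40 hU (PowerSeries.mk c') hcc
    (by rw [hc'2, hmapprod])
  have hc0 : c 0 = 1 := by
    have h1 := congrArg (PowerSeries.coeff 0) hc
    rw [PowerSeries.coeff_mk, PowerSeries.coeff_mk, hc'0] at h1
    exact_mod_cast h1.symm
  have hane : ∀ i : {x // x ∈ s}, (i : ℂ) ≠ 0 := by
    intro i hi0
    have h1 := (hsmem i).mp i.2
    rw [hi0] at h1
    apply h0
    rw [← coeff_zero_eq_aeval_zero'] at h1
    simpa using h1
  have ha0 : ∀ i, a i ≠ 0 := by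
    intro i
    rw [ha]
    rcases i with i | i
    · exact pow_ne_zero _ (hane i)
    · exact pow_ne_zero _ (hane i)
  have hZ : {z : ℂ | aeval z f = 0}.Finite := by
    have h1 : {z : ℂ | aeval z f = 0} = (s : Set ℂ) := by
      ext x
      rw [Set.mem_setOf_eq, Finset.mem_coe, hsmem]
    rw [h1]
    exact s.finite_toSet
  have hsq : (Fintype.card ({x // x ∈ s} ⊕ {x // x ∈ s}) : ℝ) *
      (∫ x in (-π)..π, roof (fun i => (a i).arg) (fun i => Real.posLog ‖a i‖) x) < 1 / 16 := by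
    obtain ⟨Z, hZdef⟩ : ∃ Z : Set ℂ, Z = {z : ℂ | aeval z f = 0} := ⟨_, rfl⟩
    rw [← hZdef] at hcon hZ
    have hZ2 : ((fun z : ℂ => z ^ 2) '' Z).Finite := hZ.image _
    have hZ4 : ((fun z : ℂ => z ^ 2) '' ((fun z : ℂ => z ^ 2) '' Z)).Finite := hZ2.image _
    have hsub : Set.range a ⊆ ((fun z : ℂ => z ^ 2) '' Z) ∪
        ((fun z : ℂ => z ^ 2) '' ((fun z : ℂ => z ^ 2) '' Z)) := by
      rintro _ ⟨i, rfl⟩
      rw [ha]
      rcases i with i | i
      · left
        exact ⟨i, by rw [hZdef]; exact (hsmem i).mp i.2, rfl⟩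
      · right
        refine ⟨(i : ℂ) ^ 2, ⟨i, by rw [hZdef]; exact (hsmem i).mp i.2, rfl⟩, ?_⟩
        simp only [Sum.elim_inr]
        ring
    have h1 : ∫ x in (-π)..π, roof (fun i => (a i).arg) (fun i => Real.posLog ‖a i‖) x ≤
        20 * ∫ x in (-π)..π, RF Z x := by
      have hπ := Real.pi_pos
      have hc2 := RF_continuous hZ2
      have hc4 := RF_continuous hZ4
      calc ∫ x in (-π)..π, roof (fun i => (a i).arg) (fun i => Real.posLog ‖a i‖) x
          ≤ ∫ x in (-π)..π, (RF ((fun z : ℂ => z ^ 2) '' Z) x +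
            RF ((fun z : ℂ => z ^ 2) '' ((fun z : ℂ => z ^ 2) '' Z)) x) := by
            apply intervalIntegral.integral_mono_on (by linarith)
              ((roof_continuous _ _).intervalIntegrable _ _)
              ((hc2.add hc4).intervalIntegrable _ _)
            intro x _
            rw [roof_eq_RF]
            exact (RF_mono (hZ2.union hZ4) hsub x).trans (RF_union hZ2 hZ4 x)
        _ = (∫ x in (-π)..π, RF ((fun z : ℂ => z ^ 2) '' Z) x) +
            ∫ x in (-π)..π, RF ((fun z : ℂ => z ^ 2) '' ((fun z : ℂ => z ^ 2) '' Z)) x :=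
            intervalIntegral.integral_add (hc2.intervalIntegrable _ _)
              (hc4.intervalIntegrable _ _)
        _ ≤ 20 * ∫ x in (-π)..π, RF Z x := by
            have h2 := area_sq hZ
            have h3 := area_sq hZ2
            linarith
    rw [Fintype.card_sum, hcard]
    have hd : (0 : ℝ) < f.natDegree := by exact_mod_cast hdpos
    push_cast
    nlinarith
  obtain ⟨P, Q, hQ, hPQ⟩ := AT2' a ha0 c hc0 (by rw [← hc]; exact hc'2) hsq
  rw [haprod] at hPQ
  refine not_square (fun i : {x // x ∈ s} => (i : ℂ)) hane ?_ ⟨⟨x0, hx0s⟩, hx01⟩ P Q hQ hPQ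
  intro i j hij
  exact Subtype.ext (hinj i j ((hsmem i).mp i.2) ((hsmem j).mp j.2) hij)


/-- F1 -/
theorem main_irred' (f : ℤ[X]) (hm : f.Monic) (hi : Irreducible f)
    (hbig : ∃ x : ℂ, aeval x f = 0 ∧ 1 < ‖x‖) :
    1 / 640 ≤ (f.natDegree : ℝ) * ∫ x in (-π)..π, RF {z : ℂ | aeval z f = 0} x := by
  obtain ⟨n, hn⟩ : ∃ n, n = f.natDegree := ⟨_, rfl⟩
  induction n using Nat.strong_induction_on generalizing f with
  | _ n ih =>
    by_cases hinj : ∀ x y : ℂ, aeval x f = 0 → aeval y f = 0 → x ^ 2 = y ^ 2 → x = y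
    · exact injective_case' f hm hi hbig hinj
    · push Not at hinj
      obtain ⟨x, y, hx, hy, hxy, hne⟩ := hinj
      obtain ⟨g, hgm, hgi, -, hfg⟩ := even_of_neg_root f hm hi
        (Main1.coeff_zero_ne f hi hbig) x y hx hy hne hxy
      obtain ⟨x0, hx0, hx01⟩ := hbig
      have hroots : ∀ z : ℂ, aeval z f = aeval (z ^ 2) g := by
        intro z
        rw [hfg, aeval_comp]
        simp
      have hgroot : aeval (x0 ^ 2) g = 0 := by rw [← hroots, hx0]
      have hg1 : 1 < ‖x0 ^ 2‖ := by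
        rw [norm_pow]
        exact one_lt_pow₀ hx01 (by norm_num)
      have hdeg : f.natDegree = g.natDegree * 2 := by
        rw [hfg, natDegree_comp, natDegree_X_pow]
      have hgpos : 0 < g.natDegree := by
        rcases Nat.eq_zero_or_pos g.natDegree with h | h
        · exfalso
          have h1 : g = 1 := hgm.natDegree_eq_zero.mp h
          rw [h1] at hgi
          exact not_irreducible_one hgi
        · exact h
      have hlt : g.natDegree < n := by omega
      have h1 := ih g.natDegree hlt g hgm hgi ⟨x0 ^ 2, hgroot, hg1⟩ rfl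
      have h2 : ∫ x in (-π)..π, RF {z : ℂ | aeval z g = 0} x ≤
          2 * ∫ x in (-π)..π, RF {z : ℂ | aeval z f = 0} x := by
        apply area_sqrt (finite_zeros f hm.ne_zero) (finite_zeros g hgm.ne_zero)
        intro z hz
        rw [Set.mem_setOf_eq, hroots]
        exact hz
      rw [hdeg]
      have hg0 : (0 : ℝ) < g.natDegree := by exact_mod_cast hgpos
      push_cast
      nlinarith

/-- the area bound -/
theorem area_bound (f : ℤ[X]) (hm : f.Monic)
    (hbig : 1 < (f.map (Int.castRingHom ℂ)).mahlerMeasure) :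
    1 / 640 ≤ (f.natDegree : ℝ) * ∫ x in (-π)..π, RF {z : ℂ | aeval z f = 0} x := by
  obtain ⟨x, hx, hx1⟩ := Main2.exists_root f hm hbig
  have hroot : aeval x f = 0 := by
    have h := (mem_roots'.1 hx).2
    rw [IsRoot.def, eval_map] at h
    rw [aeval_def]
    simpa using h
  have hint : IsIntegral ℤ x := ⟨f, hm, by rwa [aeval_def] at hroot⟩
  have hgm : (minpoly ℤ x).Monic := minpoly.monic hint
  have hgi : Irreducible (minpoly ℤ x) := minpoly.irreducible hint
  have hdvd : minpoly ℤ x ∣ f := minpoly.isIntegrallyClosed_dvd hint hroot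
  have hdeg : (minpoly ℤ x).natDegree ≤ f.natDegree := natDegree_le_of_dvd hdvd hm.ne_zero
  have h1 := main_irred' (minpoly ℤ x) hgm hgi ⟨x, minpoly.aeval ℤ x, hx1⟩
  have hsub : {z : ℂ | aeval z (minpoly ℤ x) = 0} ⊆ {z : ℂ | aeval z f = 0} := by
    intro z hz
    obtain ⟨q, hq⟩ := hdvd
    rw [Set.mem_setOf_eq] at hz ⊢
    rw [hq, map_mul, hz, zero_mul]
  have hZ := finite_zeros f hm.ne_zero
  have hW := finite_zeros (minpoly ℤ x) hgm.ne_zero
  have hπ := Real.pi_pos
  have h2 : ∫ u in (-π)..π, RF {z : ℂ | aeval z (minpoly ℤ x) = 0} u ≤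
      ∫ u in (-π)..π, RF {z : ℂ | aeval z f = 0} u := by
    apply intervalIntegral.integral_mono_on (by linarith)
      ((RF_continuous hW).intervalIntegrable _ _) ((RF_continuous hZ).intervalIntegrable _ _)
    intro u _
    exact RF_mono hZ hsub u
  have h3 : 0 ≤ ∫ u in (-π)..π, RF {z : ℂ | aeval z (minpoly ℤ x) = 0} u :=
    intervalIntegral.integral_nonneg (by linarith) fun u _ => RF_nonneg _ u
  have h4 : ((minpoly ℤ x).natDegree : ℝ) ≤ (f.natDegree : ℝ) := by exact_mod_cast hdeg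
  calc (1 : ℝ) / 640 ≤ _ := h1
    _ ≤ _ := mul_le_mul h4 h2 h3 (Nat.cast_nonneg _)

end Pool.Agent.N772.CZ
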