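import Pool.Agent.N772.CZ.Area

/-!
# Crowded zeros
-/

set_option autoImplicit false

open Polynomial
open scoped Real

namespace Pool.Agent.N772.CZ

open H904L2 H904L2.Envelope

lemma tent_ge {r θ x : ℝ} (hr : 0 < r) (h : dc (x - θ) ≤ r) : 1 ≤ r⁻¹ * tent (2 * r) θ x := by
  unfold tent
  have h1 : r ≤ max (2 * r - dc (x - θ)) 0 := le_max_of_le_left (by linarith)
  calc (1 : ℝ) = r⁻¹ * r := by field_simp
    _ ≤ _ := mul_le_mul_of_nonneg_left h1 (by positivity)

lemma continuous_multiset_sum (s : Multiset ℂ) (F : ℂ → ℝ → ℝ) (hF : ∀ w, Continuous (F w)) :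
    Continuous fun x => (s.map fun w => F w x).sum := by
  induction s using Multiset.induction_on with
  | empty => simpa using continuous_const
  | cons a s ih =>
    have h : (fun x => ((a ::ₘ s).map fun w => F w x).sum) =
        fun x => F a x + (s.map fun w => F w x).sum := by
      ext x
      rw [Multiset.map_cons, Multiset.sum_cons]
    rw [h]
    exact (hF a).add ih

lemma integral_multiset_sum_le (s : Multiset ℂ) (F : ℂ → ℝ → ℝ) (hF : ∀ w, Continuous (F w))
    (c : ℂ → ℝ) (h : ∀ w, ∫ x in (-π)..π, F w x ≤ c w) :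
    ∫ x in (-π)..π, (s.map fun w => F w x).sum ≤ (s.map c).sum := by
  induction s using Multiset.induction_on with
  | empty => simp
  | cons a s ih =>
    simp only [Multiset.map_cons, Multiset.sum_cons]
    rw [intervalIntegral.integral_add ((hF a).intervalIntegrable _ _)
      ((continuous_multiset_sum s F hF).intervalIntegrable _ _)]
    exact add_le_add (h a) ih

lemma countP_le_sum (s : Multiset ℂ) (p : ℂ → Prop) [DecidablePred p] (G : ℂ → ℝ)
    (h0 : ∀ w, 0 ≤ G w) (h1 : ∀ w, p w → 1 ≤ G w) : (s.countP p : ℝ) ≤ (s.map G).sum := by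
  induction s using Multiset.induction_on with
  | empty => simp
  | cons a s ih =>
    rw [Multiset.map_cons, Multiset.sum_cons, Multiset.countP_cons]
    by_cases hp : p a
    · rw [if_pos hp]
      push_cast
      have := h1 a hp
      linarith
    · rw [if_neg hp]
      push_cast
      have := h0 a
      linarith

/-- the local weight of a zero -/
noncomputable def wt (A n : ℝ) (w : ℂ) (x : ℝ) : ℝ :=
  (if n * Real.log ‖w‖ < A then spike w x else 0) +
    A / n * (if 0 < Real.log ‖w‖ then (A * (A + 1) * Real.log ‖w‖)⁻¹ *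
      tent (2 * (A * (A + 1) * Real.log ‖w‖)) w.arg x else 0)

lemma spike_continuous (z : ℂ) : Continuous (spike z) := by
  have : spike z = fun x => tent (Real.posLog ‖z‖) z.arg x := by
    ext x
    exact spike_eq z x
  rw [this]
  exact tent_continuous _ _

lemma wt_continuous (A n : ℝ) (w : ℂ) : Continuous (wt A n w) := by
  unfold wt
  apply Continuous.add
  · split_ifs
    · exact spike_continuous w
    · exact continuous_const
  · apply continuous_const.mul
    split_ifs
    · exact continuous_const.mul (tent_continuous _ _)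
    · exact continuous_const

lemma wt_nonneg {A n : ℝ} (hA : 1 ≤ A) (hn : 0 < n) (w : ℂ) (x : ℝ) : 0 ≤ wt A n w x := by
  unfold wt
  apply add_nonneg
  · split_ifs
    · exact spike_nonneg _ _
    · exact le_rfl
  · apply mul_nonneg (by positivity)
    split_ifs with h
    · exact mul_nonneg (by positivity) (tent_nonneg _ _ _)
    · exact le_rfl

lemma integral_wt {A n : ℝ} (hA : 1 ≤ A) (hn : 0 < n) (w : ℂ) :
    ∫ x in (-π)..π, wt A n w x ≤ 9 * A ^ 3 / n * Real.posLog ‖w‖ := by
  have hπ := Real.pi_pos
  have h1 : ∫ x in (-π)..π, (if n * Real.log ‖w‖ < A then spike w x else 0) ≤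
      A / n * Real.posLog ‖w‖ := by
    by_cases h : n * Real.log ‖w‖ < A
    · simp only [h, if_true]
      have h2 : ∫ x in (-π)..π, spike w x ≤ Real.posLog ‖w‖ ^ 2 := by
        rw [intervalIntegral.integral_congr (g := fun x => tent (Real.posLog ‖w‖) w.arg x)
          (fun x _ => spike_eq w x)]
        exact integral_tent _ _ Real.posLog_nonneg
      have h3 : Real.posLog ‖w‖ ≤ A / n := by
        rw [le_div_iff₀ hn]
        unfold Real.posLog
        rcases le_total 0 (Real.log ‖w‖) with h4 | h4
        · rw [max_eq_right h4]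
          linarith
        · rw [max_eq_left h4]
          linarith
      have h4 := Real.posLog_nonneg (x := ‖w‖)
      nlinarith
    · simp only [h, if_false]
      rw [intervalIntegral.integral_const, smul_zero]
      have := Real.posLog_nonneg (x := ‖w‖)
      positivity
  have h2 : ∫ x in (-π)..π, (if 0 < Real.log ‖w‖ then (A * (A + 1) * Real.log ‖w‖)⁻¹ *
      tent (2 * (A * (A + 1) * Real.log ‖w‖)) w.arg x else 0) ≤
      4 * (A * (A + 1)) * Real.posLog ‖w‖ := by
    by_cases h : 0 < Real.log ‖w‖
    · simp only [h, if_true]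
      rw [intervalIntegral.integral_const_mul]
      have h3 := integral_tent (2 * (A * (A + 1) * Real.log ‖w‖)) w.arg (by positivity)
      have h4 : Real.posLog ‖w‖ = Real.log ‖w‖ := by
        unfold Real.posLog
        exact max_eq_right h.le
      rw [h4]
      have h5 : (0:ℝ) < A * (A + 1) * Real.log ‖w‖ := by positivity
      calc (A * (A + 1) * Real.log ‖w‖)⁻¹ *
            ∫ x in (-π)..π, tent (2 * (A * (A + 1) * Real.log ‖w‖)) w.arg x
          ≤ (A * (A + 1) * Real.log ‖w‖)⁻¹ * (2 * (A * (A + 1) * Real.log ‖w‖)) ^ 2 :=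
            mul_le_mul_of_nonneg_left h3 (by positivity)
        _ = 4 * (A * (A + 1)) * Real.log ‖w‖ := by
            field_simp
            ring
    · simp only [h, if_false]
      rw [intervalIntegral.integral_const, smul_zero]
      have := Real.posLog_nonneg (x := ‖w‖)
      positivity
  have hi1 : Continuous fun x => (if n * Real.log ‖w‖ < A then spike w x else 0) := by
    split_ifs
    · exact spike_continuous w
    · exact continuous_const
  have hi2 : Continuous fun x => (if 0 < Real.log ‖w‖ then (A * (A + 1) * Real.log ‖w‖)⁻¹ *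
      tent (2 * (A * (A + 1) * Real.log ‖w‖)) w.arg x else 0) := by
    split_ifs
    · exact continuous_const.mul (tent_continuous _ _)
    · exact continuous_const
  have h3 : ∫ x in (-π)..π, wt A n w x =
      (∫ x in (-π)..π, (if n * Real.log ‖w‖ < A then spike w x else 0)) +
      A / n * ∫ x in (-π)..π, (if 0 < Real.log ‖w‖ then (A * (A + 1) * Real.log ‖w‖)⁻¹ *
        tent (2 * (A * (A + 1) * Real.log ‖w‖)) w.arg x else 0) := by
    unfold wt
    have hi3 : Continuous fun x => A / n * (if 0 < Real.log ‖w‖ then
        (A * (A + 1) * Real.log ‖w‖)⁻¹ *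
          tent (2 * (A * (A + 1) * Real.log ‖w‖)) w.arg x else 0) := continuous_const.mul hi2
    rw [intervalIntegral.integral_add (hi1.intervalIntegrable _ _)
      (hi3.intervalIntegrable _ _), intervalIntegral.integral_const_mul]
  rw [h3]
  have h4 : 0 ≤ Real.posLog ‖w‖ := Real.posLog_nonneg
  have h5 : A / n * ∫ x in (-π)..π, (if 0 < Real.log ‖w‖ then (A * (A + 1) * Real.log ‖w‖)⁻¹ *
        tent (2 * (A * (A + 1) * Real.log ‖w‖)) w.arg x else 0) ≤
      A / n * (4 * (A * (A + 1)) * Real.posLog ‖w‖) :=
    mul_le_mul_of_nonneg_left h2 (by positivity)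
  have h6 : A / n * Real.posLog ‖w‖ + A / n * (4 * (A * (A + 1)) * Real.posLog ‖w‖) =
      (A + 4 * (A ^ 2 * (A + 1))) / n * Real.posLog ‖w‖ := by
    field_simp
  have h7 : (A + 4 * (A ^ 2 * (A + 1))) / n ≤ 9 * A ^ 3 / n := by
    apply div_le_div_of_nonneg_right _ hn.le
    nlinarith [mul_nonneg (by linarith : (0:ℝ) ≤ A) (by linarith : (0:ℝ) ≤ A - 1),
      mul_nonneg (mul_nonneg (by linarith : (0:ℝ) ≤ A) (by linarith : (0:ℝ) ≤ A))
        (by linarith : (0:ℝ) ≤ A - 1)]
  have h8 := mul_le_mul_of_nonneg_right h7 h4
  linarith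

lemma dc_triangle (x y : ℝ) : dc (x + y) ≤ dc x + dc y := by
  unfold dc
  rw [AddCircle.coe_add]
  exact norm_add_le _ _

open Classical in
/-- the crowding condition bounds the area under the roof -/
theorem area_le (f : ℤ[X]) (hf : f ≠ 0) (hn : 0 < f.natDegree) (A : ℝ) (hA : 1 ≤ A)
    (h : ∀ z : ℂ, aeval z f = 0 → A ≤ f.natDegree * Real.log ‖z‖ →
      f.natDegree * Real.log ‖z‖ ≤ A * ((f.map (Int.castRingHom ℂ)).roots.countP fun w =>
        Real.log ‖z‖ ≤ A * Real.log ‖w‖ ∧
          ‖((w.arg - z.arg : ℝ) : AddCircle (2 * π))‖ ≤ A * Real.log ‖z‖)) :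
    (f.natDegree : ℝ) * ∫ x in (-π)..π, RF {z : ℂ | aeval z f = 0} x ≤
      9 * A ^ 3 * ((f.map (Int.castRingHom ℂ)).roots.map fun z => Real.posLog ‖z‖).sum := by
  have hπ := Real.pi_pos
  obtain ⟨n, hndef⟩ : ∃ n : ℝ, n = f.natDegree := ⟨_, rfl⟩
  rw [← hndef] at h ⊢
  have hn' : 0 < n := by rw [hndef]; exact_mod_cast hn
  obtain ⟨s, hs⟩ : ∃ s : Multiset ℂ, s = (f.map (Int.castRingHom ℂ)).roots := ⟨_, rfl⟩
  rw [← hs] at h ⊢
  have hinj : Function.Injective (Int.castRingHom ℂ) := by
    intro a b h
    simpa using h
  have hf' : f.map (Int.castRingHom ℂ) ≠ 0 := (Polynomial.map_ne_zero_iff hinj).mpr hf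
  have hroot : ∀ x : ℂ, x ∈ s ↔ aeval x f = 0 := by
    intro x
    rw [hs, mem_roots hf', IsRoot.def, eval_map]
    rfl
  have hpt : ∀ x, RF {z : ℂ | aeval z f = 0} x ≤ (s.map fun w => wt A n w x).sum := by
    intro x
    have hnn : ∀ y ∈ s.map (fun w => wt A n w x), 0 ≤ y := by
      intro y hy
      obtain ⟨w, -, rfl⟩ := Multiset.mem_map.1 hy
      exact wt_nonneg hA hn' w x
    apply RF_le (Multiset.sum_nonneg hnn)
    intro z hz
    have hzs : z ∈ s := (hroot z).mpr hz
    by_cases hcase : n * Real.log ‖z‖ < A
    · refine le_trans ?_ (Multiset.single_le_sum hnn (wt A n z x) (Multiset.mem_map_of_mem _ hzs))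
      unfold wt
      rw [if_pos hcase]
      have : 0 ≤ A / n * (if 0 < Real.log ‖z‖ then (A * (A + 1) * Real.log ‖z‖)⁻¹ *
          tent (2 * (A * (A + 1) * Real.log ‖z‖)) z.arg x else 0) := by
        apply mul_nonneg (by positivity)
        split_ifs with h
        · exact mul_nonneg (by positivity) (tent_nonneg _ _ _)
        · exact le_rfl
      linarith
    · push Not at hcase
      rcases le_or_gt (spike z x) 0 with h0 | h0
      · exact h0.trans (Multiset.sum_nonneg hnn)
      · have hlz : 0 < Real.log ‖z‖ := by
          by_contra hcon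
          push Not at hcon
          nlinarith
        have hdz : dc (x - z.arg) < Real.log ‖z‖ := by
          unfold spike at h0
          by_contra hcon
          push Not at hcon
          rw [max_eq_left (by linarith)] at h0
          exact lt_irrefl _ h0
        have h1 := h z hz hcase
        have h2 : spike z x ≤ Real.log ‖z‖ := by
          unfold spike
          have := dc_nonneg (x - z.arg)
          exact max_le hlz.le (by linarith)
        have h3 : (s.countP (fun w => Real.log ‖z‖ ≤ A * Real.log ‖w‖ ∧
            ‖((w.arg - z.arg : ℝ) : AddCircle (2 * π))‖ ≤ A * Real.log ‖z‖) : ℝ) ≤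
            (s.map fun w => n / A * wt A n w x).sum := by
          apply countP_le_sum
          · intro w
            exact mul_nonneg (by positivity) (wt_nonneg hA hn' w x)
          · rintro w ⟨hw1, hw2⟩
            have hlw : 0 < Real.log ‖w‖ := by
              by_contra hcon
              push Not at hcon
              nlinarith
            have hdw : dc (x - w.arg) ≤ A * (A + 1) * Real.log ‖w‖ := by
              have h5 : dc (z.arg - w.arg) ≤ A * Real.log ‖z‖ := by
                have h6 : dc (z.arg - w.arg) = ‖((w.arg - z.arg : ℝ) : AddCircle (2 * π))‖ := by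
                  unfold dc
                  rw [← norm_neg, ← AddCircle.coe_neg, neg_sub]
                rw [h6]
                exact hw2
              have h7 := dc_triangle (x - z.arg) (z.arg - w.arg)
              rw [show x - z.arg + (z.arg - w.arg) = x - w.arg by ring] at h7
              have h8 : (A + 1) * Real.log ‖z‖ ≤ (A + 1) * (A * Real.log ‖w‖) :=
                mul_le_mul_of_nonneg_left hw1 (by linarith)
              nlinarith
            have h9 := tent_ge (r := A * (A + 1) * Real.log ‖w‖) (by positivity) hdw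
            unfold wt
            rw [if_pos hlw]
            have h10 : 0 ≤ (if n * Real.log ‖w‖ < A then spike w x else 0) := by
              split_ifs
              · exact spike_nonneg _ _
              · exact le_rfl
            have h11 : n / A * ((if n * Real.log ‖w‖ < A then spike w x else 0) +
                A / n * ((A * (A + 1) * Real.log ‖w‖)⁻¹ *
                tent (2 * (A * (A + 1) * Real.log ‖w‖)) w.arg x)) =
                n / A * (if n * Real.log ‖w‖ < A then spike w x else 0) +
                (A * (A + 1) * Real.log ‖w‖)⁻¹ *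
                tent (2 * (A * (A + 1) * Real.log ‖w‖)) w.arg x := by
              have : A ≠ 0 := by positivity
              field_simp
            rw [h11]
            have h12 : 0 ≤ n / A * (if n * Real.log ‖w‖ < A then spike w x else 0) :=
              mul_nonneg (by positivity) h10
            linarith
        rw [Multiset.sum_map_mul_left] at h3
        have h4 : n * Real.log ‖z‖ ≤ A * (n / A * (s.map fun w => wt A n w x).sum) :=
          h1.trans (mul_le_mul_of_nonneg_left h3 (by linarith))
        have h5 : A * (n / A * (s.map fun w => wt A n w x).sum) =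
            n * (s.map fun w => wt A n w x).sum := by
          have : A ≠ 0 := by positivity
          field_simp
        rw [h5] at h4
        exact h2.trans (le_of_mul_le_mul_left h4 hn')
  have hint : ∫ x in (-π)..π, RF {z : ℂ | aeval z f = 0} x ≤
      (s.map fun w => 9 * A ^ 3 / n * Real.posLog ‖w‖).sum := by
    refine le_trans ?_ (integral_multiset_sum_le s (wt A n) (wt_continuous A n) _
      (integral_wt hA hn'))
    apply intervalIntegral.integral_mono_on (by linarith)
      ((RF_continuous (finite_zeros f hf)).intervalIntegrable _ _)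
      ((continuous_multiset_sum s (wt A n) (wt_continuous A n)).intervalIntegrable _ _)
    intro x _
    exact hpt x
  rw [Multiset.sum_map_mul_left] at hint
  calc n * ∫ x in (-π)..π, RF {z : ℂ | aeval z f = 0} x
      ≤ n * (9 * A ^ 3 / n * (s.map fun w => Real.posLog ‖w‖).sum) :=
        mul_le_mul_of_nonneg_left hint hn'.le
    _ = _ := by field_simp

lemma log_mahler (f : ℤ[X]) (habs : |f.leadingCoeff| = 1) :
    (f.map (Int.castRingHom ℂ)).mahlerMeasure =
      Real.exp ((f.map (Int.castRingHom ℂ)).roots.map fun z => Real.posLog ‖z‖).sum := by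
  rw [mahlerMeasure_eq_leadingCoeff_mul_prod_roots]
  have hinj : Function.Injective (Int.castRingHom ℂ) := by
    intro a b h
    simpa using h
  rw [leadingCoeff_map_of_injective hinj]
  have h1 : ‖(Int.castRingHom ℂ) f.leadingCoeff‖ = 1 := by
    rw [eq_intCast, Complex.norm_intCast]
    exact_mod_cast habs
  rw [h1, one_mul]
  generalize (f.map (Int.castRingHom ℂ)).roots = s
  induction s using Multiset.induction_on with
  | empty => simp
  | cons a s ih =>
    rw [Multiset.map_cons, Multiset.prod_cons, Multiset.map_cons, Multiset.sum_cons, Real.exp_add,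
      ih]
    congr 1
    rcases le_total ‖a‖ 1 with h | h
    · rw [max_eq_left h, Real.posLog_eq_zero_iff _ |>.mpr (by rwa [abs_norm]), Real.exp_zero]
    · rw [max_eq_right h, Real.posLog_eq_log (by rwa [abs_norm]), Real.exp_log (by linarith)]

/-- the area bound, general leading coefficient -/
theorem area_general (f : ℤ[X]) (hf : 1 < (f.map (Int.castRingHom ℂ)).mahlerMeasure) :
    (1 : ℝ) / 640 ≤ (Real.log |(f.leadingCoeff : ℝ)|) ^ 2 +
      (f.natDegree : ℝ) * ∫ x in (-π)..π, RF {z : ℂ | aeval z f = 0} x := by
  have hf0 : f ≠ 0 := by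
    rintro rfl
    simp at hf
    linarith
  have hπ := Real.pi_pos
  have hlc : f.leadingCoeff ≠ 0 := leadingCoeff_ne_zero.2 hf0
  have hint : 0 ≤ (f.natDegree : ℝ) * ∫ x in (-π)..π, RF {z : ℂ | aeval z f = 0} x :=
    mul_nonneg (Nat.cast_nonneg _)
      (intervalIntegral.integral_nonneg (by linarith) fun u _ => RF_nonneg _ u)
  by_cases habs : |f.leadingCoeff| = 1
  · rcases (abs_eq (by norm_num : (0:ℤ) ≤ 1)).1 habs with h | h
    · have h1 := area_bound f h hf
      have h2 := sq_nonneg (Real.log |(f.leadingCoeff : ℝ)|)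
      linarith
    · have hm : (-f).Monic := by
        rw [Monic, leadingCoeff_neg, h, neg_neg]
      have h3 : ((-f).map (Int.castRingHom ℂ)).mahlerMeasure =
          (f.map (Int.castRingHom ℂ)).mahlerMeasure := by
        rw [log_mahler f habs, log_mahler (-f) (by rw [leadingCoeff_neg, abs_neg, habs]),
          Polynomial.map_neg, roots_neg]
      have h1 := area_bound (-f) hm (by rw [h3]; exact hf)
      have h4 : {z : ℂ | aeval z (-f) = 0} = {z : ℂ | aeval z f = 0} := by
        ext z
        simp
      rw [h4, natDegree_neg] at h1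
      have h2 := sq_nonneg (Real.log |(f.leadingCoeff : ℝ)|)
      linarith
  · have h1 : (2 : ℝ) ≤ |(f.leadingCoeff : ℝ)| := by
      have h2 : 2 ≤ |f.leadingCoeff| := by
        have := Int.one_le_abs hlc
        omega
      exact_mod_cast h2
    have h2 : Real.log 2 ≤ Real.log |(f.leadingCoeff : ℝ)| := Real.log_le_log (by norm_num) h1
    have h3 := Real.log_two_gt_d9
    nlinarith

end Pool.Agent.N772.CZ
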