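import Pool.Agent.N772.CZ.Roof

/-!
# The roof of a finite set of complex numbers
-/

set_option autoImplicit false

open Polynomial
open scoped Real

namespace Pool.Agent.N772.CZ

open H904L2 H904L2.Envelope

/-- the spike of a point -/
noncomputable def spike (z : ℂ) (x : ℝ) : ℝ := max 0 (Real.log ‖z‖ - dc (x - z.arg))

/-- the roof of a set -/
noncomputable def RF (Z : Set ℂ) (x : ℝ) : ℝ := ⨆ z : Z, spike z x

lemma spike_eq (z : ℂ) (x : ℝ) : spike z x = tent (Real.posLog ‖z‖) z.arg x := by
  unfold spike tent Real.posLog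
  have := dc_nonneg (x - z.arg)
  rcases le_total 0 (Real.log ‖z‖) with h | h
  · rw [max_eq_right h, max_comm]
  · rw [max_eq_left h, max_eq_left (by linarith), max_eq_right (by linarith)]

lemma spike_nonneg (z : ℂ) (x : ℝ) : 0 ≤ spike z x := le_max_left _ _

lemma spike_le (z : ℂ) (x : ℝ) : spike z x ≤ Real.posLog ‖z‖ := by
  unfold spike Real.posLog
  have := dc_nonneg (x - z.arg)
  exact max_le_max le_rfl (by linarith)

section

variable {Z W : Set ℂ}

lemma bdd (hZ : Z.Finite) (x : ℝ) : BddAbove (Set.range fun z : Z => spike z x) := by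
  have : Finite Z := hZ
  exact Set.finite_range _ |>.bddAbove

lemma spike_le_RF (hZ : Z.Finite) {z : ℂ} (hz : z ∈ Z) (x : ℝ) : spike z x ≤ RF Z x :=
  le_ciSup (bdd hZ x) ⟨z, hz⟩

lemma RF_le {x c : ℝ} (hc : 0 ≤ c) (h : ∀ z ∈ Z, spike z x ≤ c) : RF Z x ≤ c := by
  unfold RF
  rcases isEmpty_or_nonempty Z with h1 | h1
  · rw [Real.iSup_of_isEmpty]
    exact hc
  · exact ciSup_le fun z => h z z.2

lemma RF_nonneg (Z : Set ℂ) (x : ℝ) : 0 ≤ RF Z x := by
  unfold RF
  exact Real.iSup_nonneg fun _ => spike_nonneg _ _

lemma RF_mono (hW : W.Finite) (h : Z ⊆ W) (x : ℝ) : RF Z x ≤ RF W x :=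
  RF_le (RF_nonneg W x) fun z hz => spike_le_RF hW (h hz) x

lemma RF_lip (hZ : Z.Finite) (x y : ℝ) : RF Z x ≤ RF Z y + |x - y| := by
  apply RF_le (add_nonneg (RF_nonneg _ _) (abs_nonneg _))
  intro z hz
  have h1 := tent_lip (Real.posLog ‖z‖) z.arg x y
  rw [← spike_eq, ← spike_eq] at h1
  have h2 := spike_le_RF hZ hz y
  linarith [le_abs_self (spike z x - spike z y)]

lemma RF_continuous (hZ : Z.Finite) : Continuous (RF Z) := by
  have : LipschitzWith 1 (RF Z) := by
    apply LipschitzWith.of_dist_le_mul
    intro x y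
    simp only [Real.dist_eq, NNReal.coe_one, one_mul]
    rw [abs_le]
    have h1 := RF_lip hZ x y
    have h2 := RF_lip hZ y x
    rw [abs_sub_comm y x] at h2
    constructor <;> linarith
  exact this.continuous

lemma RF_periodic (Z : Set ℂ) : Function.Periodic (RF Z) (2 * π) := by
  intro x
  unfold RF
  congr 1
  ext z
  rw [spike_eq, spike_eq]
  exact tent_periodic _ _ _

lemma spike_periodic (z : ℂ) : Function.Periodic (spike z) (2 * π) := by
  intro x
  rw [spike_eq, spike_eq]
  exact tent_periodic _ _ _

/-- the distance function and doubling -/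
lemma dc_two_mul (y : ℝ) : dc (2 * y) = 2 * min (dc y) (dc (y + π)) := by
  have hπ := Real.pi_pos
  -- reduce to `y ∈ [0, 2π)`... by periodicity with period `π`
  obtain ⟨k, hk⟩ : ∃ k : ℤ, |y - k * π| ≤ π / 2 := by
    refine ⟨round (y / π), ?_⟩
    have h1 := abs_sub_round (y / π)
    have h2 : y - round (y / π) * π = (y / π - round (y / π)) * π := by field_simp
    rw [h2, abs_mul, abs_of_pos hπ]
    nlinarith
  set t := y - k * π with ht
  have hy : y = t + k * π := by rw [ht]; ring
  have hodd : dc (t + π) = π - |t| := by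
    rcases le_total 0 t with h | h
    · have h3 : dc (t + π) = dc (t - π) := by
        have := dc_periodic (t - π)
        rw [← this]
        congr 1
        ring
      rw [abs_of_nonneg h] at hk ⊢
      rw [h3, dc_eq_abs (by rw [abs_le]; constructor <;> linarith), abs_of_nonpos (by linarith)]
      ring
    · rw [abs_of_nonpos h] at hk ⊢
      rw [dc_eq_abs (by rw [abs_le]; constructor <;> linarith), abs_of_nonneg (by linarith)]
      ring
  have heven : dc t = |t| := dc_eq_abs (by linarith)
  have h2t : dc (2 * t) = 2 * |t| := by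
    rw [dc_eq_abs (by rw [abs_mul, abs_two]; linarith), abs_mul, abs_two]
  have h2y : dc (2 * y) = 2 * |t| := by
    rw [← h2t, hy]
    have := dc_periodic.int_mul k (2 * t)
    rw [← this]
    congr 1
    ring
  rcases Int.even_or_odd k with ⟨m, hm⟩ | ⟨m, hm⟩
  · have h3 : dc y = |t| := by
      rw [← heven, hy]
      have := dc_periodic.int_mul m t
      rw [← this]
      congr 1
      rw [hm]
      push_cast
      ring
    have h4 : dc (y + π) = π - |t| := by
      rw [← hodd, hy]
      have := dc_periodic.int_mul m (t + π)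
      rw [← this]
      congr 1
      rw [hm]
      push_cast
      ring
    rw [h2y, h3, h4, min_eq_left (by linarith)]
  · have h3 : dc y = π - |t| := by
      rw [← hodd, hy]
      have := dc_periodic.int_mul m (t + π)
      rw [← this]
      congr 1
      rw [hm]
      push_cast
      ring
    have h4 : dc (y + π) = |t| := by
      rw [← heven, hy]
      have := dc_periodic.int_mul (m + 1) t
      rw [← this]
      congr 1
      rw [hm]
      push_cast
      ring
    rw [h2y, h3, h4, min_eq_right (by linarith)]

lemma dc_arg_sq (z : ℂ) (x : ℝ) : dc (x - (z ^ 2).arg) = dc (x - 2 * z.arg) := by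
  unfold dc
  congr 1
  rw [AddCircle.coe_sub, AddCircle.coe_sub]
  congr 1
  have := Complex.arg_pow_coe_angle z 2
  rw [show (2 * z.arg : ℝ) = (2 : ℕ) • z.arg by simp, AddCircle.coe_nsmul]
  exact this

lemma spike_sq (z : ℂ) (x : ℝ) :
    spike (z ^ 2) (2 * x) = 2 * max (spike z x) (spike z (x + π)) := by
  unfold spike
  rw [dc_arg_sq, norm_pow, Real.log_pow, show 2 * x - 2 * z.arg = 2 * (x - z.arg) by ring,
    dc_two_mul, show x + π - z.arg = x - z.arg + π by ring]
  push_cast
  set a := dc (x - z.arg)
  set b := dc (x - z.arg + π)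
  rcases le_total a b with h | h
  · rw [min_eq_left h, max_eq_left (max_le_max le_rfl (by linarith)),
      mul_max_of_nonneg _ _ (by norm_num : (0:ℝ) ≤ 2)]
    ring_nf
  · rw [min_eq_right h, max_eq_right (max_le_max le_rfl (by linarith)),
      mul_max_of_nonneg _ _ (by norm_num : (0:ℝ) ≤ 2)]
    ring_nf

lemma RF_sq (hZ : Z.Finite) (x : ℝ) :
    RF ((fun z => z ^ 2) '' Z) (2 * x) ≤ 2 * RF Z x + 2 * RF Z (x + π) := by
  have h1 := RF_nonneg Z x
  have h2 := RF_nonneg Z (x + π)
  apply RF_le (by linarith)
  rintro _ ⟨z, hz, rfl⟩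
  simp only
  rw [spike_sq]
  have h3 := spike_le_RF hZ hz x
  have h4 := spike_le_RF hZ hz (x + π)
  rcases max_cases (spike z x) (spike z (x + π)) with h | h <;> rw [h.1] <;> linarith

lemma integral_double {G : ℝ → ℝ} (hG : Continuous G) (hper : Function.Periodic G (2 * π)) :
    ∫ x in (-π)..π, G (2 * x) = ∫ x in (-π)..π, G x := by
  have h0 := intervalIntegral.integral_comp_mul_left (a := -π) (b := π) G (two_ne_zero)
  rw [h0]
  have h1 : ∫ x in (2 * -π)..(2 * π), G x = 2 * ∫ x in (-π)..π, G x := by
    rw [← intervalIntegral.integral_add_adjacent_intervals (b := 0)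
      (hG.intervalIntegrable _ _) (hG.intervalIntegrable _ _)]
    have h2 := hper.intervalIntegral_add_eq (-π) (0)
    have h3 := hper.intervalIntegral_add_eq (-π) (-(2 * π))
    rw [show -π + 2 * π = π by ring, show (0 : ℝ) + 2 * π = 2 * π by ring] at h2
    rw [show -π + 2 * π = π by ring, show -(2 * π) + 2 * π = 0 by ring] at h3
    rw [show 2 * -π = -(2 * π) by ring, ← h2, ← h3]
    ring
  rw [h1, smul_eq_mul]
  ring

lemma integral_shift' {F : ℝ → ℝ} (hper : Function.Periodic F (2 * π)) :
    ∫ x in (-π)..π, F (x + π) = ∫ x in (-π)..π, F x := by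
  have := integral_shift hper (-π)
  rw [← this]
  apply intervalIntegral.integral_congr
  intro x _
  simp

/-- the area under the roof of the squares -/
lemma area_sq (hZ : Z.Finite) :
    ∫ x in (-π)..π, RF ((fun z => z ^ 2) '' Z) x ≤ 4 * ∫ x in (-π)..π, RF Z x := by
  have hπ := Real.pi_pos
  have hZ2 : ((fun z : ℂ => z ^ 2) '' Z).Finite := hZ.image _
  have hc := RF_continuous hZ
  have hc2 := RF_continuous hZ2
  rw [← integral_double hc2 (RF_periodic _)]
  calc ∫ x in (-π)..π, RF ((fun z => z ^ 2) '' Z) (2 * x)
      ≤ ∫ x in (-π)..π, (2 * RF Z x + 2 * RF Z (x + π)) := by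
        apply intervalIntegral.integral_mono_on (by linarith)
        · exact (hc2.comp (continuous_const.mul continuous_id)).intervalIntegrable _ _
        · exact ((continuous_const.mul hc).add
            (continuous_const.mul (hc.comp (continuous_id.add continuous_const)))).intervalIntegrable _ _
        · intro x _
          exact RF_sq hZ x
    _ = 4 * ∫ x in (-π)..π, RF Z x := by
        have hi1 : IntervalIntegrable (fun x => 2 * RF Z x) MeasureTheory.volume (-π) π :=
          (continuous_const.mul hc).intervalIntegrable _ _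
        have hi2 : IntervalIntegrable (fun x => 2 * RF Z (x + π)) MeasureTheory.volume (-π) π :=
          (continuous_const.mul (hc.comp (continuous_id.add continuous_const))).intervalIntegrable
            _ _
        rw [intervalIntegral.integral_add hi1 hi2,
          intervalIntegral.integral_const_mul, intervalIntegral.integral_const_mul,
          integral_shift' (RF_periodic _)]
        ring

/-- the area for the full set of square roots -/
lemma area_sqrt (hZ : Z.Finite) (hW : W.Finite) (h : ∀ z : ℂ, z ^ 2 ∈ W → z ∈ Z) :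
    ∫ x in (-π)..π, RF W x ≤ 2 * ∫ x in (-π)..π, RF Z x := by
  have hπ := Real.pi_pos
  have hc := RF_continuous hZ
  have hc2 := RF_continuous hW
  rw [← integral_double hc2 (RF_periodic _), ← intervalIntegral.integral_const_mul]
  apply intervalIntegral.integral_mono_on (by linarith)
  · exact (hc2.comp (continuous_const.mul continuous_id)).intervalIntegrable _ _
  · exact (continuous_const.mul hc).intervalIntegrable _ _
  · intro x _
    apply RF_le (by have := RF_nonneg Z x; linarith)
    intro w hw
    obtain ⟨t, ht⟩ : ∃ t : ℂ, t ^ 2 = w := IsAlgClosed.exists_pow_nat_eq w (by norm_num)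
    have h1 : t ∈ Z := h t (by rw [ht]; exact hw)
    have h2 : -t ∈ Z := h (-t) (by rw [neg_sq, ht]; exact hw)
    have h3 := spike_le_RF hZ h1 x
    have h4 := spike_le_RF hZ h2 x
    have h5 : spike t (x + π) ≤ RF Z x := by
      rcases eq_or_ne t 0 with h0 | h0
      · rw [h0]
        unfold spike
        rw [norm_zero, Real.log_zero, max_eq_left (by have := dc_nonneg (x + π - (0:ℂ).arg); linarith)]
        exact RF_nonneg _ _
      · have h6 : spike t (x + π) = spike (-t) x := by
          unfold spike
          rw [norm_neg]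
          congr 2
          unfold dc
          congr 1
          have h7 := Complex.arg_neg_coe_angle h0
          have h8 : (((-t).arg : ℝ) : AddCircle (2 * π)) = (t.arg : AddCircle (2 * π)) + (π : ℝ) := h7
          rw [AddCircle.coe_sub, AddCircle.coe_sub, AddCircle.coe_add, h8]
          have h9 : ((π : ℝ) : AddCircle (2 * π)) + ((π : ℝ) : AddCircle (2 * π)) = 0 := by
            rw [← AddCircle.coe_add, ← two_mul, AddCircle.coe_period]
          have h10 : ((π : ℝ) : AddCircle (2 * π)) = -((π : ℝ) : AddCircle (2 * π)) :=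
            eq_neg_of_add_eq_zero_left h9
          rw [sub_add_eq_sub_sub, sub_eq_add_neg _ ((π : ℝ) : AddCircle (2 * π)), ← h10]
          abel
        rw [h6]
        exact h4
    rw [← ht, spike_sq]
    rcases max_cases (spike t x) (spike t (x + π)) with h | h <;> rw [h.1] <;> linarith

lemma RF_union (hZ : Z.Finite) (hW : W.Finite) (x : ℝ) :
    RF (Z ∪ W) x ≤ RF Z x + RF W x := by
  have h1 := RF_nonneg Z x
  have h2 := RF_nonneg W x
  apply RF_le (by linarith)
  rintro z (hz | hz)
  · have := spike_le_RF hZ hz x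
    linarith
  · have := spike_le_RF hW hz x
    linarith

lemma roof_eq_RF {ι : Type} [Fintype ι] [Nonempty ι] (a : ι → ℂ) (x : ℝ) :
    roof (fun i => (a i).arg) (fun i => Real.posLog ‖a i‖) x = RF (Set.range a) x := by
  have hf : (Set.range a).Finite := Set.finite_range a
  apply le_antisymm
  · apply roof_le
    intro i
    rw [← spike_eq]
    exact spike_le_RF hf ⟨i, rfl⟩ x
  · apply RF_le (roof_nonneg _ _ _)
    rintro _ ⟨i, rfl⟩
    rw [spike_eq]
    exact le_roof (fun i => (a i).arg) (fun i => Real.posLog ‖a i‖) i x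

end

end Pool.Agent.N772.CZ
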