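import Pool.Agent.H904L2.Envelope

/-!
# The roof function of a finite family of points: smooth envelopes
-/

set_option autoImplicit false

open Polynomial
open scoped Real

namespace Pool.Agent.N772.CZ

open H904L2 H904L2.Envelope

/-- the maximum of the tents -/
noncomputable def roof {ι : Type} [Fintype ι] [Nonempty ι] (θ ℓ : ι → ℝ) (x : ℝ) : ℝ :=
  Finset.univ.sup' Finset.univ_nonempty (fun i => tent (ℓ i) (θ i) x)

section

variable {ι : Type} [Fintype ι] [Nonempty ι] (θ ℓ : ι → ℝ)

lemma le_roof (i : ι) (x : ℝ) : tent (ℓ i) (θ i) x ≤ roof θ ℓ x :=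
  Finset.le_sup' (fun i => tent (ℓ i) (θ i) x) (Finset.mem_univ i)

lemma roof_le {x c : ℝ} (h : ∀ i, tent (ℓ i) (θ i) x ≤ c) : roof θ ℓ x ≤ c := by
  apply Finset.sup'_le
  intro i _
  exact h i

lemma roof_nonneg (x : ℝ) : 0 ≤ roof θ ℓ x :=
  (tent_nonneg _ _ _).trans (le_roof θ ℓ (Classical.arbitrary ι) x)

lemma roof_le_add (x y : ℝ) : roof θ ℓ x ≤ roof θ ℓ y + |x - y| := by
  apply roof_le
  intro i
  have h1 := tent_lip (ℓ i) (θ i) x y
  have h2 := le_roof θ ℓ i y
  linarith [le_abs_self (tent (ℓ i) (θ i) x - tent (ℓ i) (θ i) y)]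

lemma roof_lip : LipschitzWith 1 (roof θ ℓ) := by
  apply LipschitzWith.of_dist_le_mul
  intro x y
  simp only [Real.dist_eq, NNReal.coe_one, one_mul]
  rw [abs_le]
  have h1 := roof_le_add θ ℓ x y
  have h2 := roof_le_add θ ℓ y x
  rw [abs_sub_comm y x] at h2
  constructor <;> linarith

lemma roof_continuous : Continuous (roof θ ℓ) := (roof_lip θ ℓ).continuous

lemma roof_periodic : Function.Periodic (roof θ ℓ) (2 * π) := by
  intro x
  unfold roof
  congr 1
  ext i
  exact tent_periodic _ _ _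

/-- a smooth envelope whose integral is close to the integral of the roof -/
theorem exists_envelope (hℓ : ∀ i, 0 ≤ ℓ i) (ε : ℝ) (hε : 0 < ε) :
    ∃ S : ℝ → ℝ, ContDiff ℝ 1 S ∧ Function.Periodic S (2 * π) ∧ (∀ x, |deriv S x| ≤ 1) ∧
      (∀ x, 0 < S x) ∧ (∀ i, ℓ i ≤ S (θ i)) ∧
      ∫ x in (-π)..π, S x ≤ (∫ x in (-π)..π, roof θ ℓ x) + ε := by
  have hπ := Real.pi_pos
  obtain ⟨S, h1, h2, h3, h4⟩ := steklov (roof θ ℓ) (roof_lip θ ℓ) (roof_periodic θ ℓ)
    (ε / (2 * π)) (by positivity)
  refine ⟨S, h1, h2, h3, fun x => lt_of_le_of_lt (roof_nonneg θ ℓ x) (h4 x).1, ?_, ?_⟩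
  · intro i
    have h5 := le_roof θ ℓ i (θ i)
    have h6 : tent (ℓ i) (θ i) (θ i) = ℓ i := by
      simp only [tent, sub_self, dc_zero, sub_zero]
      exact max_eq_left (hℓ i)
    rw [h6] at h5
    exact h5.trans (h4 _).1.le
  · have hcS : Continuous S := h1.continuous
    calc ∫ x in (-π)..π, S x ≤ ∫ x in (-π)..π, (roof θ ℓ x + ε / (2 * π)) := by
          apply intervalIntegral.integral_mono_on (by linarith) (hcS.intervalIntegrable _ _)
            (((roof_continuous θ ℓ).add continuous_const).intervalIntegrable _ _)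
          intro x _
          exact (h4 x).2
      _ = (∫ x in (-π)..π, roof θ ℓ x) + ε := by
          rw [intervalIntegral.integral_add ((roof_continuous θ ℓ).intervalIntegrable _ _)
            (by simp), intervalIntegral.integral_const]
          congr 1
          rw [smul_eq_mul]
          field_simp
          ring

end

end Pool.Agent.N772.CZ
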